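import Pool.Agent.H32OO.Ord
import Pool.Agent.H32OO.Iso

/-!
# MP_f27419_an: complemented copies of `C(S)` in `C(K, X)`

Let `K` and `S` be compact Hausdorff spaces and `X` a real Banach space, and let `J : C(S) → C(K, X)`
and `Q : C(K, X) → C(S)` be bounded linear maps with `Q J = id`.  Suppose that `c₀` is not
complemented in `C(K)` and does not embed in `X`.

* Then `‖Q‖ ‖J‖ ≥ n + 1` for every `n` such that the `n`-th sequential derived set of `S` is not
  empty; in particular only finitely many of them are non-empty.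
* If `S` is infinite and metrizable, then `S` is countable and `C(S)` is isomorphic to `c₀`.
* If `S` is homeomorphic to `[0, α]` for an ordinal `α`, then `α < ω ^ ω`.
-/

set_option autoImplicit false

open Filter Topology

universe u v w z

namespace Pool.Agent.Results.MP_f27419_an.FiniteHeight

open Pool.Agent.H32OO

theorem mem_seqDer_of_homeomorph {S : Type w} [TopologicalSpace S] {T : Type z}
    [TopologicalSpace T] (e : S ≃ₜ T) (n : ℕ) : ∀ t ∈ seqDer T n, e.symm t ∈ seqDer S n := by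
  induction n with
  | zero => exact fun t _ => trivial
  | succ n ih =>
    rintro t ⟨γ, hγ, hlim⟩
    exact ⟨fun k => e.symm (γ k), fun k => ⟨ih _ (hγ k).1, fun h => (hγ k).2 (e.symm.injective h)⟩,
      (e.symm.continuous.tendsto t).comp hlim⟩

theorem result :
    ∀ (K : Type u) [TopologicalSpace K] [CompactSpace K] [T2Space K]
      (X : Type v) [NormedAddCommGroup X] [NormedSpace ℝ X] [CompleteSpace X]
      (S : Type w) [TopologicalSpace S] [CompactSpace S] [T2Space S]
      (J : C(S, ℝ) →L[ℝ] C(K, X)) (Q : C(K, X) →L[ℝ] C(S, ℝ)),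
      Q.comp J = ContinuousLinearMap.id ℝ C(S, ℝ) →
      CZeroComplementedIn K ∨ CZeroEmbedsIn X ∨
        ((∀ n : ℕ, (seqDer S n).Nonempty → (n : ℝ) + 1 ≤ ‖Q‖ * ‖J‖) ∧
          (TopologicalSpace.MetrizableSpace S → Infinite S →
            Countable S ∧ Nonempty (C(S, ℝ) ≃L[ℝ] c0)) ∧
          (∀ α : Ordinal.{z}, Nonempty (S ≃ₜ Set.Icc (0 : Ordinal.{z}) α) →
            α < Ordinal.omega0 ^ Ordinal.omega0)) := by
  intro K _ _ _ X _ _ _ S _ _ _ J Q hQJ
  by_cases hK : CZeroComplementedIn K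
  · exact Or.inl hK
  by_cases hX : CZeroEmbedsIn X
  · exact Or.inr (Or.inl hX)
  have h0 : ∀ n : ℕ, (seqDer S n).Nonempty → (n : ℝ) + 1 ≤ ‖Q‖ * ‖J‖ :=
    fun n hn => height_bound hK hX J Q hQJ n hn
  obtain ⟨n, hn⟩ := exists_nat_gt (‖Q‖ * ‖J‖)
  have hne : ¬ (seqDer S n).Nonempty := fun hne => by
    have h1 := h0 n hne
    linarith
  refine Or.inr (Or.inr ⟨h0, ?_, ?_⟩)
  · intro hS1 hS2
    exact iso_c0 n (Set.not_nonempty_iff_eq_empty.1 hne)
  · rintro α ⟨e⟩
    by_contra hα
    push Not at hα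
    have h2 : Ordinal.omega0 ^ (n : Ordinal.{z}) ≤ α :=
      (Ordinal.opow_le_opow_right Ordinal.omega0_pos (Ordinal.natCast_lt_omega0 n).le).trans hα
    obtain ⟨t, ht⟩ := seqDer_nonempty α n h2
    exact hne ⟨_, mem_seqDer_of_homeomorph e n t ht⟩

end Pool.Agent.Results.MP_f27419_an.FiniteHeight
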